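import Mathlib
import Pool.Agent.Helper632.Adm.Def

/-!
Power growth classes of the characteristic, in ring-theoretic terms.
-/

open Metric Set Complex Real

open scoped ComplexConjugate Topology

namespace Pool.Agent.H632.Gr

open Pool.Agent.Helper632.Adm

/-- power condition for the comparison function -/
def QP (m : ℕ) (w Q : HD) : Prop := ∀ c c' e, Om w c → Const e → 2 * c' = 1 + c →
  Dv (w - c) (Q - e) → Dv (w - c') (Q - e ^ (2 ^ m))

/-- ring-theoretic form of growth of order `(1 - r)^(-m)` -/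
def NP (m : ℕ) (f : HD) : Prop := ∃ w Q B, Dsk w ∧ Const B ∧ QP m w Q ∧ QB w Q B ∧
  ∀ ρ, Pos w ρ → ∃ G, IsU G ∧ Dom w f ρ G ∧ Sml w Q ρ G

/-- growth of the comparison function -/
theorem QP_growth {m : ℕ} {w Q : HD} {β : ℂ} (h : Dsk w) (hc : QP m w Q) (hb : QB w Q (cst β)) :
    ∀ n : ℕ, ∀ c : ℝ, 0 ≤ c → (1 / 2 : ℝ) ^ (n + 1) ≤ 1 - c → ∀ p ∈ ball (0:ℂ) 1, w.1 p = c →
      ‖Q.1 p‖ ≤ (max 1 ‖β‖) ^ ((2 ^ m) ^ n) := by
  have hB1 : 1 ≤ max 1 ‖β‖ := le_max_left _ _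
  have base : ∀ c : ℝ, 0 ≤ c → c ≤ 1 / 2 → ∀ p ∈ ball (0:ℂ) 1, w.1 p = c →
      ‖Q.1 p‖ ≤ max 1 ‖β‖ := by
    intro c h0 h1 p hp hpc
    have := hb (cst c) (cst (Q.1 p)) (const_cst _) (const_cst _) (by
      rw [← cst_two, ← map_mul, ← map_one cst, dsk_le h, norm_one, norm_mul, Complex.norm_real,
        Real.norm_eq_abs, abs_of_nonneg h0, Complex.norm_ofNat]
      linarith) ((dsk_ev h hp hpc _ _).2 rfl)
    rw [dsk_le h] at this
    exact this.trans (le_max_right _ _)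
  intro n
  induction n with
  | zero =>
    intro c h0 h1 p hp hpc
    rw [pow_zero, pow_one]
    refine base c h0 ?_ p hp hpc
    rw [zero_add, pow_one] at h1
    linarith
  | succ n ih =>
    intro c h0 h1 p hp hpc
    rcases le_total c (1 / 2) with h2 | h2
    · refine (base c h0 h2 p hp hpc).trans ?_
      exact le_self_pow₀ hB1 (by positivity)
    · have hlt : 2 * c - 1 < 1 := by
        have : (0:ℝ) < (1 / 2 : ℝ) ^ (n + 1 + 1) := by positivity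
        linarith
      have h3 : (1 / 2 : ℝ) ^ (n + 1) ≤ 1 - (2 * c - 1) := by
        rw [pow_succ] at h1
        linarith
      obtain ⟨p', hp', hpc'⟩ := dsk_surj h (c := ((2 * c - 1 : ℝ) : ℂ)) (by
        rw [Complex.norm_real, Real.norm_eq_abs, abs_of_nonneg (by linarith)]; exact hlt)
      have h4 := ih (2 * c - 1) (by linarith) h3 p' hp' hpc'
      have h5 := hc (cst ((2 * c - 1 : ℝ) : ℂ)) (cst c) (cst (Q.1 p'))
        ((dsk_om h _).2 (by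
          rw [Complex.norm_real, Real.norm_eq_abs, abs_of_nonneg (by linarith)]; exact hlt))
        (const_cst _) (by
          rw [← cst_two, ← map_one cst, ← map_mul, ← map_add]
          congr 1
          push_cast
          ring) ((dsk_ev h hp' hpc' _ _).2 rfl)
      rw [← map_pow, dsk_ev h hp hpc] at h5
      rw [h5, norm_pow]
      calc ‖Q.1 p'‖ ^ (2 ^ m) ≤ ((max 1 ‖β‖) ^ ((2 ^ m) ^ n)) ^ (2 ^ m) :=
            pow_le_pow_left₀ (norm_nonneg _) h4 _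
        _ = _ := by rw [← pow_mul, ← pow_succ]

theorem QP_log {m : ℕ} {w Q : HD} {β : ℂ} (h : Dsk w) (hc : QP m w Q) (hb : QB w Q (cst β))
    {ρ : ℝ} (h0 : 0 ≤ ρ) (h1 : ρ < 1) {p : ℂ} (hp : p ∈ ball (0:ℂ) 1) (hpρ : w.1 p = ρ) :
    Real.log ‖Q.1 p‖ ≤ Real.log (max 1 ‖β‖) * ((1 - ρ) ^ m)⁻¹ := by
  have hl2 : 0 < Real.log 2 := Real.log_pos (by norm_num)
  have hpos : 0 < 1 - ρ := by linarith
  have hB : 1 ≤ max 1 ‖β‖ := le_max_left _ _
  have hlB : 0 ≤ Real.log (max 1 ‖β‖) := Real.log_nonneg hB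
  set n := ⌊Real.log (1 - ρ)⁻¹ / Real.log 2⌋₊ with hn
  have hL : 0 ≤ Real.log (1 - ρ)⁻¹ := Real.log_nonneg ((one_le_inv₀ hpos).2 (by linarith))
  have hn1 : (n : ℝ) ≤ Real.log (1 - ρ)⁻¹ / Real.log 2 := Nat.floor_le (by positivity)
  have hn2 : Real.log (1 - ρ)⁻¹ / Real.log 2 < n + 1 := Nat.lt_floor_add_one _
  have hn3 : (1 / 2 : ℝ) ^ (n + 1) ≤ 1 - ρ := by
    rw [div_lt_iff₀ hl2] at hn2
    have h3 : Real.log (1 - ρ)⁻¹ < Real.log ((2:ℝ) ^ (n + 1)) := by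
      rw [Real.log_pow]; push_cast; exact hn2
    have h4 : (1 - ρ)⁻¹ < (2:ℝ) ^ (n + 1) := (Real.log_lt_log_iff (by positivity) (by positivity)).1 h3
    rw [one_div, inv_pow]
    exact (inv_lt_of_inv_lt₀ hpos h4).le
  have hn4 : (2:ℝ) ^ n ≤ (1 - ρ)⁻¹ := by
    rw [le_div_iff₀ hl2] at hn1
    have h3 : Real.log ((2:ℝ) ^ n) ≤ Real.log (1 - ρ)⁻¹ := by
      rw [Real.log_pow]; exact hn1
    exact (Real.log_le_log_iff (by positivity) (by positivity)).1 h3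
  have h5 := QP_growth h hc hb n ρ h0 hn3 p hp hpρ
  rcases eq_or_lt_of_le (norm_nonneg (Q.1 p)) with h6 | h6
  · rw [← h6, Real.log_zero]
    positivity
  · have h7 := Real.log_le_log h6 h5
    rw [Real.log_pow] at h7
    refine h7.trans ?_
    rw [mul_comm]
    refine mul_le_mul_of_nonneg_left ?_ hlB
    push_cast
    rw [← inv_pow, ← pow_mul, mul_comm m n, pow_mul]
    exact pow_le_pow_left₀ (by positivity) hn4 m

theorem bigO_of_NP {m : ℕ} {f : HD} (h : NP m f) :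
    (fun r : ℝ => Tc f.1 r) =O[𝓝[<] (1:ℝ)] fun r : ℝ => ((1 - r) ^ m)⁻¹ := by
  obtain ⟨w, Q, B, hw, hB, hc, hb, hG⟩ := h
  obtain ⟨β, rfl⟩ := (const_iff _).1 hB
  obtain ⟨p₀, hp₀, hw0⟩ := dsk_surj hw (c := 0) (by simp)
  have hp₀1 : ‖p₀‖ < 1 := by simpa using hp₀
  have hz0 : (0:ℂ) ∈ ball (0:ℂ) 1 := mem_ball_self one_pos
  have ha1 : ‖w.1 0‖ < 1 := dsk_maps hw hz0
  set δ := (1 - ‖w.1 0‖) / 2 with hδ
  have hδ0 : 0 < δ := by rw [hδ]; linarith
  have hδ1 : δ ≤ 1 / 2 := by rw [hδ]; linarith [norm_nonneg (w.1 0)]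
  set A := Real.log (max 1 ‖β‖) with hA
  have hA0 : 0 ≤ A := Real.log_nonneg (le_max_left _ _)
  set M := 4 / (1 - ‖p₀‖) with hM
  have hM0 : 0 < M := by rw [hM]; exact div_pos (by norm_num) (by linarith)
  refine Asymptotics.IsBigO.of_bound (M * (A * (δ ^ m)⁻¹)) ?_
  have hr1 : (1 + ‖p₀‖) / 2 < 1 := by linarith
  filter_upwards [Ioo_mem_nhdsLT hr1] with r hr
  obtain ⟨hr4, hr3⟩ := hr
  have hr0 : 0 < r := by linarith [norm_nonneg p₀]
  have hpos : 0 < 1 - r := by linarith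
  rw [Real.norm_of_nonneg (Tc_nonneg _ _), Real.norm_of_nonneg (by positivity)]
  -- the radius
  set ρ : ℝ := 1 - δ * (1 - r) with hρ
  have hρ0 : 0 ≤ ρ := by rw [hρ]; nlinarith
  have hρ1 : ρ < 1 := by
    have : 0 < δ * (1 - r) := mul_pos hδ0 hpos
    rw [hρ]; linarith
  have hρn : ‖(ρ:ℂ)‖ = ρ := by rw [Complex.norm_real, Real.norm_eq_abs, abs_of_nonneg hρ0]
  obtain ⟨G, hGU, hGD, hGS⟩ := hG (cst ρ) ((dsk_pos hw _).2 ⟨ρ, hρ0, hρ1, rfl⟩)
  rw [dsk_dom hw f (by rw [hρn]; exact hρ1)] at hGD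
  obtain ⟨p, hp, hpρ⟩ := dsk_surj hw (c := (ρ:ℂ)) (by rw [hρn]; exact hρ1)
  rw [← hpρ, dsk_sml hw Q G hp₀ hp hw0] at hGS
  obtain ⟨g, hg, hg'⟩ := exists_log (diff G) ((isU_iff G).1 hGU)
  have hin : ∀ z, ‖z‖ ≤ r → ‖w.1 z‖ ≤ ρ := by
    intro z hz
    have hz1 : ‖z‖ < 1 := lt_of_le_of_lt hz hr3
    have h1 := schwarz_pick (diff w) (fun z hz => dsk_maps hw hz) hz1
    have h2 : (1 - ‖w.1 0‖) * (1 - r) ≤ (1 - ‖w.1 0‖) * (1 - ‖z‖) :=
      mul_le_mul_of_nonneg_left (by linarith) (by linarith)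
    rw [hρ, hδ]
    linarith
  have hre : ∀ z, ‖z‖ ≤ r → 0 ≤ (g z).re ∧ ‖f.1 z‖ ≤ Real.exp (g z).re := by
    intro z hz
    have hzb : z ∈ ball (0:ℂ) 1 := by rw [mem_ball_zero_iff]; linarith
    obtain ⟨h1, h2⟩ := hGD z hzb (by rw [hρn]; exact hin z hz)
    rw [← hg' z hzb, Complex.norm_exp] at h1 h2
    exact ⟨Real.exp_le_exp.1 (by rw [Real.exp_zero]; exact h1), h2⟩
  have hT : Tc f.1 r ≤ (g 0).re := Tc_le hg hr0 hr3 fun z hz => hre z hz.le
  have hHar := harnack (hg.mono (ball_subset_ball hr3.le)) (p := p₀)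
    (fun z hz => (hre z (by rw [mem_ball_zero_iff] at hz; exact hz.le)).1) (by linarith)
  have hgp0 : 0 ≤ (g p₀).re := (hre p₀ (by linarith)).1
  have hg00 : 0 ≤ (g 0).re := (hre 0 (by rw [norm_zero]; exact hr0.le)).1
  have h6 : (g 0).re ≤ M * (g p₀).re := by
    rw [hM, div_mul_eq_mul_div, le_div_iff₀ (by linarith)]
    have h7 : (g 0).re * ((1 - ‖p₀‖) / 2) ≤ (g 0).re * (r - ‖p₀‖) :=
      mul_le_mul_of_nonneg_left (by linarith) hg00
    have h8 : (g p₀).re * (r + ‖p₀‖) ≤ (g p₀).re * 2 :=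
      mul_le_mul_of_nonneg_left (by linarith) hgp0
    linarith
  have h9 : (g p₀).re = Real.log ‖G.1 p₀‖ := by rw [← hg' p₀ hp₀, log_norm_exp]
  have hGp0 : 0 < ‖G.1 p₀‖ := norm_pos_iff.2 ((isU_iff G).1 hGU p₀ hp₀)
  have h10 : (g p₀).re ≤ Real.log ‖Q.1 p‖ := by
    rw [h9]; exact Real.log_le_log hGp0 hGS
  have h11 := QP_log hw hc hb hρ0 hρ1 hp hpρ
  have h12 : ((1 - ρ) ^ m)⁻¹ = (δ ^ m)⁻¹ * ((1 - r) ^ m)⁻¹ := by
    rw [hρ, ← mul_inv, ← mul_pow]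
    congr 2
    ring
  rw [h12] at h11
  calc Tc f.1 r ≤ (g 0).re := hT
    _ ≤ M * (g p₀).re := h6
    _ ≤ M * (A * ((δ ^ m)⁻¹ * ((1 - r) ^ m)⁻¹)) :=
        mul_le_mul_of_nonneg_left (h10.trans h11) hM0.le
    _ = _ := by ring

/-- the comparison function -/
theorem qp_diff (A : ℝ) (m : ℕ) :
    DifferentiableOn ℂ (fun z : ℂ => Complex.exp ((A:ℂ) * ((1 - z) ^ m)⁻¹)) (ball 0 1) :=
  Complex.differentiable_exp.comp_differentiableOn (q_diff A m)

theorem NP_of_bigO {m : ℕ} {f : HD}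
    (h : (fun r : ℝ => Tc f.1 r) =O[𝓝[<] (1:ℝ)] fun r : ℝ => ((1 - r) ^ m)⁻¹) : NP m f := by
  obtain ⟨C₀, hC₀⟩ := h.bound
  obtain ⟨r₀, hr₀, hr₀'⟩ := (mem_nhdsLT_iff_exists_Ioo_subset (a := (1:ℝ))).1 hC₀
  have hr₀1 : r₀ < 1 := hr₀
  set C := max C₀ 0 with hC
  have hC0 : 0 ≤ C := le_max_right _ _
  set r₁ := max r₀ 0 with hr₁
  have hr₁0 : 0 ≤ r₁ := le_max_right _ _
  have hr₁1 : r₁ < 1 := max_lt hr₀1 one_pos
  have hbd : ∀ s, r₁ < s → s < 1 → Tc f.1 s ≤ C * ((1 - s) ^ m)⁻¹ := by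
    intro s hs hs1
    have h1 : ‖Tc f.1 s‖ ≤ C₀ * ‖((1 - s) ^ m)⁻¹‖ := hr₀' ⟨(le_max_left _ _).trans_lt hs, hs1⟩
    have hpos : 0 < 1 - s := by linarith
    have hL : 0 ≤ ((1 - s) ^ m)⁻¹ := by positivity
    rw [Real.norm_of_nonneg (Tc_nonneg _ _), Real.norm_of_nonneg hL] at h1
    exact h1.trans (mul_le_mul_of_nonneg_right (le_max_left _ _) hL)
  have h1r₁ : 0 < 1 - r₁ := by linarith
  set A : ℝ := C * (2 / (1 - r₁)) ^ m + 1 with hA
  have hA0 : 0 < A := by rw [hA]; positivity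
  have hQz : ∀ z ∈ ball (0:ℂ) 1, (mkH _ (qp_diff A m)).1 z = Complex.exp ((A:ℂ) * ((1 - z) ^ m)⁻¹) :=
    fun z hz => mkH_apply _ hz
  have hX : ∀ z ∈ ball (0:ℂ) 1, X.1 z = z := fun z hz => X_apply hz
  refine ⟨X, mkH _ (qp_diff A m), cst ((Real.exp (A * 2 ^ m) : ℝ) : ℂ), dsk_X, const_cst _,
    ?_, ?_, ?_⟩
  · intro c c' e hc he hcc hd
    obtain ⟨c, rfl⟩ := (const_iff _).1 hc.1
    obtain ⟨e, rfl⟩ := (const_iff _).1 he
    rw [om_X] at hc
    have hcb : c ∈ ball (0:ℂ) 1 := by simpa using hc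
    have hc' : c' = cst ((1 + c) / 2) := by
      apply ext'
      intro z hz
      have := congrArg (fun f : HD => f.1 z) hcc
      simp only [mul_apply', two_apply', add_apply', one_apply', cst_apply] at this
      rw [cst_apply, ← this]
      ring
    subst hc'
    have hcb' : (1 + c) / 2 ∈ ball (0:ℂ) 1 := by
      rw [mem_ball_zero_iff, norm_div, Complex.norm_ofNat, div_lt_one (by norm_num)]
      refine (norm_add_le _ _).trans_lt ?_
      rw [norm_one]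
      linarith
    rw [dsk_ev dsk_X hcb (hX c hcb), hQz c hcb] at hd
    rw [← map_pow, dsk_ev dsk_X hcb' (hX _ hcb'), hQz _ hcb', ← hd, ← Complex.exp_nat_mul]
    congr 1
    have e1 : 1 - (1 + c) / 2 = (1 - c) / 2 := by ring
    rw [e1, div_pow, inv_div]
    push_cast
    ring
  · intro c e hc he hle hd
    obtain ⟨c, rfl⟩ := (const_iff _).1 hc
    obtain ⟨e, rfl⟩ := (const_iff _).1 he
    rw [← cst_two, ← map_mul, ← map_one cst, dsk_le dsk_X, norm_one, norm_mul,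
      Complex.norm_ofNat] at hle
    have hcb : c ∈ ball (0:ℂ) 1 := by rw [mem_ball_zero_iff]; linarith
    rw [dsk_ev dsk_X hcb (hX c hcb), hQz c hcb] at hd
    rw [dsk_le dsk_X, ← hd, Complex.norm_exp, Complex.norm_real,
      Real.norm_of_nonneg (Real.exp_pos _).le, Real.exp_le_exp]
    refine (Complex.re_le_norm _).trans ?_
    rw [norm_mul, norm_inv, norm_pow, Complex.norm_real, Real.norm_of_nonneg hA0.le]
    refine mul_le_mul_of_nonneg_left ?_ hA0.le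
    have h1 : 1 / 2 ≤ ‖1 - c‖ := by
      have := norm_sub_norm_le (1:ℂ) c
      rw [norm_one] at this
      linarith
    have h2 : (1 / 2 : ℝ) ^ m ≤ ‖1 - c‖ ^ m := pow_le_pow_left₀ (by norm_num) h1 m
    have h3 := inv_anti₀ (by positivity) h2
    rwa [← inv_pow, ← inv_pow, one_div, inv_inv, inv_pow] at h3
  · intro ρ hρ
    obtain ⟨ρ, rfl⟩ := (const_iff _).1 hρ.1.1
    obtain ⟨r, hr0, hr1, rfl⟩ := (dsk_pos dsk_X _).1 hρ
    have hrn : ‖(r:ℂ)‖ = r := by rw [Complex.norm_real, Real.norm_eq_abs, abs_of_nonneg hr0]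
    have hm1 : max r r₁ < 1 := max_lt hr1 hr₁1
    have hm0 : 0 ≤ max r r₁ := hr0.trans (le_max_left _ _)
    set s := (1 + max r r₁) / 2 with hs
    have hs0 : 0 < s := by rw [hs]; linarith
    have hs1 : s < 1 := by rw [hs]; linarith
    have hsr : r ≤ s := by
      have := le_max_left r r₁
      rw [hs]; linarith
    have hsr₁ : r₁ < s := by
      have := le_max_right r r₁
      rw [hs]; linarith
    obtain ⟨G, hGU, hGd, hG0⟩ := exists_dom f hs0 hs1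
    refine ⟨G, hGU, ?_, ?_⟩
    · rw [dsk_dom dsk_X f (by rw [hrn]; exact hr1)]
      intro p hp hle
      rw [hX p hp, hrn] at hle
      exact hGd p (hle.trans hsr)
    · have hrb : (r:ℂ) ∈ ball (0:ℂ) 1 := by rw [mem_ball_zero_iff, hrn]; exact hr1
      have h0b : (0:ℂ) ∈ ball (0:ℂ) 1 := mem_ball_self one_pos
      have := dsk_sml dsk_X (mkH _ (qp_diff A m)) G h0b hrb (hX 0 h0b)
      rw [hX _ hrb] at this
      rw [this, hQz _ hrb]
      have h1r : 0 < 1 - r := by linarith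
      have e1 : ‖Complex.exp ((A:ℂ) * ((1 - (r:ℂ)) ^ m)⁻¹)‖ = Real.exp (A * ((1 - r) ^ m)⁻¹) := by
        rw [show ((A:ℂ) * ((1 - (r:ℂ)) ^ m)⁻¹) = ((A * ((1 - r) ^ m)⁻¹ : ℝ) : ℂ) by push_cast; rfl,
          ← Complex.ofReal_exp, Complex.norm_real, Real.norm_of_nonneg (Real.exp_pos _).le]
      rw [e1]
      have hG0pos : 0 < ‖G.1 0‖ := norm_pos_iff.2 ((isU_iff G).1 hGU 0 h0b)
      rw [← Real.log_le_log_iff hG0pos (by positivity), Real.log_exp]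
      refine hG0.trans ?_
      have h5 := hbd s hsr₁ hs1
      have h1m : 0 < 1 - max r r₁ := by linarith
      have e2 : (1 - s)⁻¹ = 2 / (1 - max r r₁) := by
        rw [hs]
        have : 1 - (1 + max r r₁) / 2 = (1 - max r r₁) / 2 := by ring
        rw [this, inv_div]
      have h6 : (1 - r) * (1 - r₁) ≤ 1 - max r r₁ := by
        rcases le_total r r₁ with h | h
        · rw [max_eq_right h]; nlinarith
        · rw [max_eq_left h]; nlinarith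
      have h7 : (1 - s)⁻¹ ≤ (2 / (1 - r₁)) * (1 - r)⁻¹ := by
        rw [e2, ← div_eq_mul_inv, div_div, mul_comm (1 - r₁)]
        exact div_le_div_of_nonneg_left (by norm_num) (by positivity) h6
      have h8 : ((1 - s) ^ m)⁻¹ ≤ (2 / (1 - r₁)) ^ m * ((1 - r) ^ m)⁻¹ := by
        rw [← inv_pow, ← inv_pow, ← mul_pow]
        exact pow_le_pow_left₀ (by rw [inv_nonneg]; linarith) h7 m
      have h9 : C * ((1 - s) ^ m)⁻¹ ≤ C * ((2 / (1 - r₁)) ^ m * ((1 - r) ^ m)⁻¹) :=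
        mul_le_mul_of_nonneg_left h8 hC0
      have h10 : 1 ≤ ((1 - r) ^ m)⁻¹ :=
        (one_le_inv₀ (by positivity)).2 (pow_le_one₀ h1r.le (by linarith))
      rw [hA]
      linarith

theorem NP_iff (m : ℕ) (f : HD) : NP m f ↔
    (fun r : ℝ => Tc f.1 r) =O[𝓝[<] (1:ℝ)] fun r : ℝ => ((1 - r) ^ m)⁻¹ :=
  ⟨bigO_of_NP, NP_of_bigO⟩

section

open FirstOrder FirstOrder.Language FirstOrder.Ring

variable [CompatibleRing HD]

theorem isT_pow {t : (ℕ → HD) → HD} (ht : IsT t) (k : ℕ) : IsT (fun v => t v ^ k) := by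
  induction k with
  | zero => simpa using IsT.one (R := HD)
  | succ k ih => simpa [pow_succ] using ih.mul ht

theorem dfQP {w Q : (ℕ → HD) → HD} (m : ℕ) (hw : IsT w) (hQ : IsT Q) :
    Df (fun v => QP m (w v) (Q v)) := by
  unfold QP
  refine Df.all (Df.all (Df.all ?_))
  exact Df.imp (dfOm hw.shift.shift.shift (IsT.var 2)) (Df.imp (dfConst (IsT.var 0))
    (Df.imp (Df.eq (IsT.two.mul (IsT.var 1)) (IsT.one.add (IsT.var 2)))
    (Df.imp (dfDv (hw.shift.shift.shift.sub (IsT.var 2)) (hQ.shift.shift.shift.sub (IsT.var 0)))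
    (dfDv (hw.shift.shift.shift.sub (IsT.var 1))
      (hQ.shift.shift.shift.sub (isT_pow (IsT.var 0) (2 ^ m)))))))

theorem dfNP {f : (ℕ → HD) → HD} (m : ℕ) (hf : IsT f) : Df (fun v => NP m (f v)) := by
  unfold NP
  refine Df.ex (Df.ex (Df.ex ?_))
  refine (dfDsk (IsT.var 2)).and ((dfConst (IsT.var 0)).and
    ((dfQP m (IsT.var 2) (IsT.var 1)).and ((dfQB (IsT.var 2) (IsT.var 1) (IsT.var 0)).and
      (Df.all (Df.imp (dfPos (IsT.var 3) (IsT.var 0)) (Df.ex ?_))))))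
  exact (dfU (IsT.var 0)).and ((dfDom (IsT.var 4) hf.shift.shift.shift.shift.shift
    (IsT.var 1) (IsT.var 0)).and (dfSml (IsT.var 4) (IsT.var 3) (IsT.var 1) (IsT.var 0)))

theorem exists_formula_pow (m : ℕ) : ∃ φ : Language.ring.Formula (Fin 1), ∀ f : HD,
    φ.Realize (fun _ => f) ↔
      (fun r : ℝ => Tc f.1 r) =O[𝓝[<] (1:ℝ)] fun r : ℝ => ((1 - r) ^ m)⁻¹ := by
  obtain ⟨φ, hφ⟩ := Df.toFin (P := fun f => NP m f) (dfNP m (IsT.var 0))
  exact ⟨φ, fun f => (hφ f).trans (NP_iff m f)⟩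

end

end Pool.Agent.H632.Gr
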