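import Mathlib
import Pool.Agent.H632.Gr.Pow

/-!
Finite order of growth, in ring-theoretic terms.
-/

open Metric Set Complex Real

open scoped ComplexConjugate Topology

namespace Pool.Agent.H632.Gr

open Pool.Agent.Helper632.Adm

/-- `1 / (1 - c)` is at most `R` at `ρ` -/
def Cmp (w R ρ c : HD) : Prop := ∀ e, Const e → Dv (w - ρ) (R - e) → Le w 1 ((1 - c) * e)

/-- ring-theoretic form of finite order -/
def FO (f : HD) : Prop := ∃ w R K B Q β, Dsk w ∧ Const K ∧ Const B ∧ Const β ∧ QC w R K ∧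
  QB w R B ∧ QP 1 w Q ∧ QB w Q β ∧
  ∀ ρ, Pos w ρ → ∃ G c, IsU G ∧ Dom w f ρ G ∧ Pos w c ∧ Cmp w R ρ c ∧ Sml w Q c G

theorem core {f w : HD} (hw : Dsk w) {p₀ : ℂ} (hp₀ : p₀ ∈ ball (0:ℂ) 1) {r : ℝ}
    (hr4 : (1 + ‖p₀‖) / 2 < r) (hr3 : r < 1) {G : HD} (hGU : IsU G)
    (hGD : Dom w f (cst ((1 - (1 - ‖w.1 0‖) / 2 * (1 - r) : ℝ) : ℂ)) G) :
    Tc f.1 r ≤ 4 / (1 - ‖p₀‖) * Real.log ‖G.1 p₀‖ := by
  have hp₀1 : ‖p₀‖ < 1 := by simpa using hp₀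
  have hz0 : (0:ℂ) ∈ ball (0:ℂ) 1 := mem_ball_self one_pos
  have ha1 : ‖w.1 0‖ < 1 := dsk_maps hw hz0
  set δ := (1 - ‖w.1 0‖) / 2 with hδ
  have hδ0 : 0 < δ := by rw [hδ]; linarith
  have hδ1 : δ ≤ 1 / 2 := by rw [hδ]; linarith [norm_nonneg (w.1 0)]
  set M := 4 / (1 - ‖p₀‖) with hM
  have hM0 : 0 < M := by rw [hM]; exact div_pos (by norm_num) (by linarith)
  have hr0 : 0 < r := by linarith [norm_nonneg p₀]
  have hpos : 0 < 1 - r := by linarith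
  set ρ : ℝ := 1 - δ * (1 - r) with hρ
  have hρ0 : 0 ≤ ρ := by rw [hρ]; nlinarith
  have hρ1 : ρ < 1 := by
    have : 0 < δ * (1 - r) := mul_pos hδ0 hpos
    rw [hρ]; linarith
  have hρn : ‖(ρ:ℂ)‖ = ρ := by rw [Complex.norm_real, Real.norm_eq_abs, abs_of_nonneg hρ0]
  rw [dsk_dom hw f (by rw [hρn]; exact hρ1)] at hGD
  obtain ⟨g, hg, hg'⟩ := exists_log (diff G) ((isU_iff G).1 hGU)
  have hin : ∀ z, ‖z‖ ≤ r → ‖w.1 z‖ ≤ ρ := by
    intro z hz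
    have hz1 : ‖z‖ < 1 := lt_of_le_of_lt hz hr3
    have h1 := schwarz_pick (diff w) (fun z hz => dsk_maps hw hz) hz1
    have h2 : (1 - ‖w.1 0‖) * (1 - r) ≤ (1 - ‖w.1 0‖) * (1 - ‖z‖) :=
      mul_le_mul_of_nonneg_left (by linarith) (by linarith)
    rw [hρ, hδ]
    linarith
  have hre : ∀ z, ‖z‖ ≤ r → 0 ≤ (g z).re ∧ ‖f.1 z‖ ≤ Real.exp (g z).re := by
    intro z hz
    have hzb : z ∈ ball (0:ℂ) 1 := by rw [mem_ball_zero_iff]; linarith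
    obtain ⟨h1, h2⟩ := hGD z hzb (by rw [hρn]; exact hin z hz)
    rw [← hg' z hzb, Complex.norm_exp] at h1 h2
    exact ⟨Real.exp_le_exp.1 (by rw [Real.exp_zero]; exact h1), h2⟩
  have hT : Tc f.1 r ≤ (g 0).re := Tc_le hg hr0 hr3 fun z hz => hre z hz.le
  have hHar := harnack (hg.mono (ball_subset_ball hr3.le)) (p := p₀)
    (fun z hz => (hre z (by rw [mem_ball_zero_iff] at hz; exact hz.le)).1) (by linarith)
  have hgp0 : 0 ≤ (g p₀).re := (hre p₀ (by linarith)).1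
  have hg00 : 0 ≤ (g 0).re := (hre 0 (by rw [norm_zero]; exact hr0.le)).1
  have h6 : (g 0).re ≤ M * (g p₀).re := by
    rw [hM, div_mul_eq_mul_div, le_div_iff₀ (by linarith)]
    have h7 : (g 0).re * ((1 - ‖p₀‖) / 2) ≤ (g 0).re * (r - ‖p₀‖) :=
      mul_le_mul_of_nonneg_left (by linarith) hg00
    have h8 : (g p₀).re * (r + ‖p₀‖) ≤ (g p₀).re * 2 :=
      mul_le_mul_of_nonneg_left (by linarith) hgp0
    linarith
  have h9 : (g p₀).re = Real.log ‖G.1 p₀‖ := by rw [← hg' p₀ hp₀, log_norm_exp]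
  rw [← h9]
  exact hT.trans h6

/-- dyadic index of a radius -/
theorem dyad {ρ : ℝ} (h0 : 0 ≤ ρ) (h1 : ρ < 1) : ∃ n : ℕ, (1 / 2 : ℝ) ^ (n + 1) ≤ 1 - ρ ∧
    (2:ℝ) ^ n ≤ (1 - ρ)⁻¹ := by
  have hl2 : 0 < Real.log 2 := Real.log_pos (by norm_num)
  have hpos : 0 < 1 - ρ := by linarith
  have hL : 0 ≤ Real.log (1 - ρ)⁻¹ := Real.log_nonneg ((one_le_inv₀ hpos).2 (by linarith))
  refine ⟨⌊Real.log (1 - ρ)⁻¹ / Real.log 2⌋₊, ?_, ?_⟩
  · have hn2 : Real.log (1 - ρ)⁻¹ / Real.log 2 < ⌊Real.log (1 - ρ)⁻¹ / Real.log 2⌋₊ + 1 :=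
      Nat.lt_floor_add_one _
    rw [div_lt_iff₀ hl2] at hn2
    have h3 : Real.log (1 - ρ)⁻¹ <
        Real.log ((2:ℝ) ^ (⌊Real.log (1 - ρ)⁻¹ / Real.log 2⌋₊ + 1)) := by
      rw [Real.log_pow]; push_cast; exact hn2
    have h4 := (Real.log_lt_log_iff (by positivity) (by positivity)).1 h3
    rw [one_div, inv_pow]
    exact (inv_lt_of_inv_lt₀ hpos h4).le
  · have hn1 : (⌊Real.log (1 - ρ)⁻¹ / Real.log 2⌋₊ : ℝ) ≤ Real.log (1 - ρ)⁻¹ / Real.log 2 :=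
      Nat.floor_le (by positivity)
    rw [le_div_iff₀ hl2] at hn1
    have h3 : Real.log ((2:ℝ) ^ ⌊Real.log (1 - ρ)⁻¹ / Real.log 2⌋₊) ≤ Real.log (1 - ρ)⁻¹ := by
      rw [Real.log_pow]; exact hn1
    exact (Real.log_le_log_iff (by positivity) (by positivity)).1 h3

theorem bigO_of_FO {f : HD} (h : FO f) : ∃ m : ℕ,
    (fun r : ℝ => Tc f.1 r) =O[𝓝[<] (1:ℝ)] fun r : ℝ => ((1 - r) ^ m)⁻¹ := by
  obtain ⟨w, R, K, B, Q, β, hw, hK, hB, hβ, hc, hb, hcQ, hbQ, hG⟩ := h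
  obtain ⟨k, rfl⟩ := (const_iff _).1 hK
  obtain ⟨b, rfl⟩ := (const_iff _).1 hB
  obtain ⟨β, rfl⟩ := (const_iff _).1 hβ
  obtain ⟨p₀, hp₀, hw0⟩ := dsk_surj hw (c := 0) (by simp)
  have hp₀1 : ‖p₀‖ < 1 := by simpa using hp₀
  have hz0 : (0:ℂ) ∈ ball (0:ℂ) 1 := mem_ball_self one_pos
  have ha1 : ‖w.1 0‖ < 1 := dsk_maps hw hz0
  obtain ⟨m, hm⟩ : ∃ m : ℕ, max 1 ‖k‖ ≤ (2:ℝ) ^ m :=
    pow_unbounded_of_one_lt (max 1 ‖k‖) (by norm_num : (1:ℝ) < 2) |>.imp fun _ h => h.le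
  refine ⟨m, ?_⟩
  set δ := (1 - ‖w.1 0‖) / 2 with hδ
  have hδ0 : 0 < δ := by rw [hδ]; linarith
  have hδ1 : δ ≤ 1 / 2 := by rw [hδ]; linarith [norm_nonneg (w.1 0)]
  set A := Real.log (max 1 ‖β‖) with hA
  have hA0 : 0 ≤ A := Real.log_nonneg (le_max_left _ _)
  set M := 4 / (1 - ‖p₀‖) with hM
  have hM0 : 0 < M := by rw [hM]; exact div_pos (by norm_num) (by linarith)
  refine Asymptotics.IsBigO.of_bound (M * (A * (max 1 ‖b‖ * (δ ^ m)⁻¹))) ?_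
  have hr1 : (1 + ‖p₀‖) / 2 < 1 := by linarith
  filter_upwards [Ioo_mem_nhdsLT hr1] with r hr
  obtain ⟨hr4, hr3⟩ := hr
  have hpos : 0 < 1 - r := by linarith
  rw [Real.norm_of_nonneg (Tc_nonneg _ _), Real.norm_of_nonneg (by positivity)]
  set ρ : ℝ := 1 - δ * (1 - r) with hρ
  have hρ0 : 0 ≤ ρ := by
    have := norm_nonneg p₀
    rw [hρ]; nlinarith
  have hρ1 : ρ < 1 := by
    have : 0 < δ * (1 - r) := mul_pos hδ0 hpos
    rw [hρ]; linarith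
  have hρn : ‖(ρ:ℂ)‖ = ρ := by rw [Complex.norm_real, Real.norm_eq_abs, abs_of_nonneg hρ0]
  obtain ⟨G, c, hGU, hGD, hcP, hcC, hGS⟩ := hG (cst ρ) ((dsk_pos hw _).2 ⟨ρ, hρ0, hρ1, rfl⟩)
  obtain ⟨γ', rfl⟩ := (const_iff _).1 hcP.1.1
  obtain ⟨γ, hγ0, hγ1, rfl⟩ := (dsk_pos hw _).1 hcP
  obtain ⟨p, hp, hpρ⟩ := dsk_surj hw (c := (ρ:ℂ)) (by rw [hρn]; exact hρ1)
  obtain ⟨q, hq, hqγ⟩ := dsk_surj hw (c := (γ:ℂ)) (by
    rw [Complex.norm_real, Real.norm_eq_abs, abs_of_nonneg hγ0]; exact hγ1)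
  have h1 := core hw hp₀ hr4 hr3 hGU hGD
  rw [← hqγ, dsk_sml hw Q G hp₀ hq hw0] at hGS
  have h2 := QP_log hw hcQ hbQ hγ0 hγ1 hq hqγ
  rw [pow_one] at h2
  have h3 : (1 - γ)⁻¹ ≤ ‖R.1 p‖ := by
    have h4 := hcC (cst (R.1 p)) (const_cst _) ((dsk_ev hw hp hpρ _ _).2 rfl)
    rw [← map_one cst, ← map_sub, ← map_mul, dsk_le hw, norm_one, norm_mul,
      show (1 - (γ:ℂ)) = ((1 - γ : ℝ) : ℂ) by push_cast; rfl, Complex.norm_real,
      Real.norm_of_nonneg (by linarith)] at h4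
    rw [inv_le_iff_one_le_mul₀' (by linarith)]
    exact h4
  obtain ⟨n, hn1, hn2⟩ := dyad hρ0 hρ1
  have h5 := Q_growth hw hc hb n ρ hρ0 hn1 p hp hpρ
  have h6 : (max 1 ‖k‖) ^ n ≤ ((1 - ρ) ^ m)⁻¹ := by
    calc (max 1 ‖k‖) ^ n ≤ ((2:ℝ) ^ m) ^ n :=
          pow_le_pow_left₀ (le_trans zero_le_one (le_max_left _ _)) hm n
      _ = ((2:ℝ) ^ n) ^ m := by rw [← pow_mul, ← pow_mul, mul_comm]
      _ ≤ ((1 - ρ)⁻¹) ^ m := pow_le_pow_left₀ (by positivity) hn2 m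
      _ = _ := by rw [inv_pow]
  have h12 : ((1 - ρ) ^ m)⁻¹ = (δ ^ m)⁻¹ * ((1 - r) ^ m)⁻¹ := by
    rw [hρ, ← mul_inv, ← mul_pow]
    congr 2
    ring
  have hGp0 : 0 < ‖G.1 p₀‖ := norm_pos_iff.2 ((isU_iff G).1 hGU p₀ hp₀)
  have h7 : Real.log ‖G.1 p₀‖ ≤ A * (max 1 ‖b‖ * ((δ ^ m)⁻¹ * ((1 - r) ^ m)⁻¹)) := by
    calc Real.log ‖G.1 p₀‖ ≤ Real.log ‖Q.1 q‖ := Real.log_le_log hGp0 hGS
      _ ≤ A * (1 - γ)⁻¹ := h2
      _ ≤ A * ‖R.1 p‖ := mul_le_mul_of_nonneg_left h3 hA0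
      _ ≤ A * (max 1 ‖b‖ * ((δ ^ m)⁻¹ * ((1 - r) ^ m)⁻¹)) := by
          refine mul_le_mul_of_nonneg_left (h5.trans ?_) hA0
          rw [← h12]
          exact mul_le_mul_of_nonneg_left h6 (le_trans zero_le_one (le_max_left _ _))
  calc Tc f.1 r ≤ M * Real.log ‖G.1 p₀‖ := h1
    _ ≤ M * (A * (max 1 ‖b‖ * ((δ ^ m)⁻¹ * ((1 - r) ^ m)⁻¹))) := mul_le_mul_of_nonneg_left h7 hM0.le
    _ = _ := by ring

theorem FO_of_bigO {f : HD} {m : ℕ}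
    (h : (fun r : ℝ => Tc f.1 r) =O[𝓝[<] (1:ℝ)] fun r : ℝ => ((1 - r) ^ m)⁻¹) : FO f := by
  obtain ⟨C₀, hC₀⟩ := h.bound
  obtain ⟨r₀, hr₀, hr₀'⟩ := (mem_nhdsLT_iff_exists_Ioo_subset (a := (1:ℝ))).1 hC₀
  have hr₀1 : r₀ < 1 := hr₀
  set C := max C₀ 0 with hC
  have hC0 : 0 ≤ C := le_max_right _ _
  set r₁ := max r₀ 0 with hr₁
  have hr₁0 : 0 ≤ r₁ := le_max_right _ _
  have hr₁1 : r₁ < 1 := max_lt hr₀1 one_pos
  have hbd : ∀ s, r₁ < s → s < 1 → Tc f.1 s ≤ C * ((1 - s) ^ m)⁻¹ := by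
    intro s hs hs1
    have h1 : ‖Tc f.1 s‖ ≤ C₀ * ‖((1 - s) ^ m)⁻¹‖ := hr₀' ⟨(le_max_left _ _).trans_lt hs, hs1⟩
    have hpos : 0 < 1 - s := by linarith
    have hL : 0 ≤ ((1 - s) ^ m)⁻¹ := by positivity
    rw [Real.norm_of_nonneg (Tc_nonneg _ _), Real.norm_of_nonneg hL] at h1
    exact h1.trans (mul_le_mul_of_nonneg_right (le_max_left _ _) hL)
  have h1r₁ : 0 < 1 - r₁ := by linarith
  set A : ℝ := C * (2 / (1 - r₁)) ^ m + 1 with hA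
  have hA1 : 1 ≤ A := by
    have : 0 ≤ C * (2 / (1 - r₁)) ^ m := by positivity
    rw [hA]; linarith
  have hA0 : 0 < A := by linarith
  have hRz : ∀ z ∈ ball (0:ℂ) 1, (mkH _ (q_diff A m)).1 z = (A:ℂ) * ((1 - z) ^ m)⁻¹ :=
    fun z hz => mkH_apply _ hz
  have hQz : ∀ z ∈ ball (0:ℂ) 1, (mkH _ (qp_diff 1 1)).1 z =
      Complex.exp (((1:ℝ):ℂ) * ((1 - z) ^ 1)⁻¹) := fun z hz => mkH_apply _ hz
  have hX : ∀ z ∈ ball (0:ℂ) 1, X.1 z = z := fun z hz => X_apply hz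
  have hcd : ∀ c c' : HD, Om X c → 2 * c' = 1 + c → ∃ γ : ℂ, c = cst γ ∧ γ ∈ ball (0:ℂ) 1 ∧
      c' = cst ((1 + γ) / 2) ∧ (1 + γ) / 2 ∈ ball (0:ℂ) 1 := by
    intro c c' hc hcc
    obtain ⟨c, rfl⟩ := (const_iff _).1 hc.1
    rw [om_X] at hc
    have hcb : c ∈ ball (0:ℂ) 1 := by simpa using hc
    refine ⟨c, rfl, hcb, ?_, ?_⟩
    · apply ext'
      intro z hz
      have := congrArg (fun f : HD => f.1 z) hcc
      simp only [mul_apply', two_apply', add_apply', one_apply', cst_apply] at this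
      rw [cst_apply, ← this]
      ring
    · rw [mem_ball_zero_iff, norm_div, Complex.norm_ofNat, div_lt_one (by norm_num)]
      refine (norm_add_le _ _).trans_lt ?_
      rw [norm_one]
      linarith
  have hhalf : ∀ c : ℂ, 2 * ‖c‖ ≤ 1 → ∀ k : ℕ, (‖1 - c‖ ^ k)⁻¹ ≤ 2 ^ k := by
    intro c hle k
    have h1 : 1 / 2 ≤ ‖1 - c‖ := by
      have := norm_sub_norm_le (1:ℂ) c
      rw [norm_one] at this
      linarith
    have h2 : (1 / 2 : ℝ) ^ k ≤ ‖1 - c‖ ^ k := pow_le_pow_left₀ (by norm_num) h1 k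
    have h3 := inv_anti₀ (by positivity) h2
    rwa [← inv_pow, ← inv_pow, one_div, inv_inv, inv_pow] at h3
  refine ⟨X, mkH _ (q_diff A m), cst ((2:ℂ) ^ m), cst ((A * 2 ^ m : ℝ) : ℂ), mkH _ (qp_diff 1 1),
    cst ((Real.exp (1 * 2 ^ 1) : ℝ) : ℂ), dsk_X, const_cst _, const_cst _, const_cst _,
    ?_, ?_, ?_, ?_, ?_⟩
  · intro c c' e hc he hcc hd
    obtain ⟨c, rfl, hcb, rfl, hcb'⟩ := hcd c c' hc hcc
    obtain ⟨e, rfl⟩ := (const_iff _).1 he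
    rw [dsk_ev dsk_X hcb (hX c hcb), hRz c hcb] at hd
    rw [← map_mul, dsk_ev dsk_X hcb' (hX _ hcb'), hRz _ hcb', ← hd]
    have e1 : 1 - (1 + c) / 2 = (1 - c) / 2 := by ring
    rw [e1, div_pow, inv_div]
    ring
  · intro c e hc he hle hd
    obtain ⟨c, rfl⟩ := (const_iff _).1 hc
    obtain ⟨e, rfl⟩ := (const_iff _).1 he
    rw [← cst_two, ← map_mul, ← map_one cst, dsk_le dsk_X, norm_one, norm_mul,
      Complex.norm_ofNat] at hle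
    have hcb : c ∈ ball (0:ℂ) 1 := by rw [mem_ball_zero_iff]; linarith
    rw [dsk_ev dsk_X hcb (hX c hcb), hRz c hcb] at hd
    rw [dsk_le dsk_X, ← hd, norm_mul, norm_inv, norm_pow, Complex.norm_real, Complex.norm_real,
      Real.norm_of_nonneg hA0.le, Real.norm_of_nonneg (by positivity)]
    exact mul_le_mul_of_nonneg_left (hhalf c hle m) hA0.le
  · intro c c' e hc he hcc hd
    obtain ⟨c, rfl, hcb, rfl, hcb'⟩ := hcd c c' hc hcc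
    obtain ⟨e, rfl⟩ := (const_iff _).1 he
    rw [dsk_ev dsk_X hcb (hX c hcb), hQz c hcb] at hd
    rw [← map_pow, dsk_ev dsk_X hcb' (hX _ hcb'), hQz _ hcb', ← hd, ← Complex.exp_nat_mul]
    congr 1
    have e1 : 1 - (1 + c) / 2 = (1 - c) / 2 := by ring
    rw [e1, div_pow, inv_div]
    push_cast
    ring
  · intro c e hc he hle hd
    obtain ⟨c, rfl⟩ := (const_iff _).1 hc
    obtain ⟨e, rfl⟩ := (const_iff _).1 he
    rw [← cst_two, ← map_mul, ← map_one cst, dsk_le dsk_X, norm_one, norm_mul,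
      Complex.norm_ofNat] at hle
    have hcb : c ∈ ball (0:ℂ) 1 := by rw [mem_ball_zero_iff]; linarith
    rw [dsk_ev dsk_X hcb (hX c hcb), hQz c hcb] at hd
    rw [dsk_le dsk_X, ← hd, Complex.norm_exp, Complex.norm_real,
      Real.norm_of_nonneg (Real.exp_pos _).le, Real.exp_le_exp]
    refine (Complex.re_le_norm _).trans ?_
    rw [norm_mul, norm_inv, norm_pow, Complex.norm_real, Real.norm_of_nonneg zero_le_one]
    exact mul_le_mul_of_nonneg_left (hhalf c hle 1) zero_le_one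
  · intro ρ hρ
    obtain ⟨ρ, rfl⟩ := (const_iff _).1 hρ.1.1
    obtain ⟨r, hr0, hr1, rfl⟩ := (dsk_pos dsk_X _).1 hρ
    have hrn : ‖(r:ℂ)‖ = r := by rw [Complex.norm_real, Real.norm_eq_abs, abs_of_nonneg hr0]
    have hrb : (r:ℂ) ∈ ball (0:ℂ) 1 := by rw [mem_ball_zero_iff, hrn]; exact hr1
    have h0b : (0:ℂ) ∈ ball (0:ℂ) 1 := mem_ball_self one_pos
    have h1r : 0 < 1 - r := by linarith
    have hinv1 : 1 ≤ ((1 - r) ^ m)⁻¹ :=
      (one_le_inv₀ (by positivity)).2 (pow_le_one₀ h1r.le (by linarith))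
    set V : ℝ := A * ((1 - r) ^ m)⁻¹ with hV
    have hV1 : 1 ≤ V := by
      rw [hV]; nlinarith
    have hV0 : 0 < V := by linarith
    set γ : ℝ := 1 - V⁻¹ with hγ
    have hγ0 : 0 ≤ γ := by
      have := inv_le_one_of_one_le₀ hV1
      rw [hγ]; linarith
    have hγ1 : γ < 1 := by
      have : 0 < V⁻¹ := by positivity
      rw [hγ]; linarith
    have hγn : ‖(γ:ℂ)‖ = γ := by rw [Complex.norm_real, Real.norm_eq_abs, abs_of_nonneg hγ0]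
    have hγb : (γ:ℂ) ∈ ball (0:ℂ) 1 := by rw [mem_ball_zero_iff, hγn]; exact hγ1
    have hm1 : max r r₁ < 1 := max_lt hr1 hr₁1
    have hm0 : 0 ≤ max r r₁ := hr0.trans (le_max_left _ _)
    set s := (1 + max r r₁) / 2 with hs
    have hs0 : 0 < s := by rw [hs]; linarith
    have hs1 : s < 1 := by rw [hs]; linarith
    have hsr : r ≤ s := by
      have := le_max_left r r₁
      rw [hs]; linarith
    have hsr₁ : r₁ < s := by
      have := le_max_right r r₁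
      rw [hs]; linarith
    obtain ⟨G, hGU, hGd, hG0⟩ := exists_dom f hs0 hs1
    refine ⟨G, cst (γ:ℂ), hGU, ?_, (dsk_pos dsk_X _).2 ⟨γ, hγ0, hγ1, rfl⟩, ?_, ?_⟩
    · rw [dsk_dom dsk_X f (by rw [hrn]; exact hr1)]
      intro p hp hle
      rw [hX p hp, hrn] at hle
      exact hGd p (hle.trans hsr)
    · intro e he hd
      obtain ⟨e, rfl⟩ := (const_iff _).1 he
      rw [dsk_ev dsk_X hrb (hX _ hrb), hRz _ hrb] at hd
      rw [← map_one cst, ← map_sub, ← map_mul, dsk_le dsk_X, norm_one, norm_mul, ← hd,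
        show (1 - (γ:ℂ)) = ((V⁻¹ : ℝ) : ℂ) by rw [hγ]; push_cast; ring, Complex.norm_real,
        Real.norm_of_nonneg (by positivity),
        show ((A:ℂ) * ((1 - (r:ℂ)) ^ m)⁻¹) = ((V : ℝ) : ℂ) by rw [hV]; push_cast; rfl,
        Complex.norm_real, Real.norm_of_nonneg hV0.le, inv_mul_cancel₀ hV0.ne']
    · have := dsk_sml dsk_X (mkH _ (qp_diff 1 1)) G h0b hγb (hX 0 h0b)
      rw [hX _ hγb] at this
      rw [this, hQz _ hγb]
      have e1 : ‖Complex.exp (((1:ℝ):ℂ) * ((1 - (γ:ℂ)) ^ 1)⁻¹)‖ = Real.exp V := by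
        rw [show (((1:ℝ):ℂ) * ((1 - (γ:ℂ)) ^ 1)⁻¹) = ((V : ℝ) : ℂ) by
            rw [pow_one, show (1 - (γ:ℂ)) = ((V⁻¹ : ℝ) : ℂ) by rw [hγ]; push_cast; ring]
            push_cast
            rw [one_mul, inv_inv],
          ← Complex.ofReal_exp, Complex.norm_real, Real.norm_of_nonneg (Real.exp_pos _).le]
      rw [e1]
      have hG0pos : 0 < ‖G.1 0‖ := norm_pos_iff.2 ((isU_iff G).1 hGU 0 h0b)
      rw [← Real.log_le_log_iff hG0pos (by positivity), Real.log_exp]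
      refine hG0.trans ?_
      have h5 := hbd s hsr₁ hs1
      have h1m : 0 < 1 - max r r₁ := by linarith
      have e2 : (1 - s)⁻¹ = 2 / (1 - max r r₁) := by
        rw [hs]
        have : 1 - (1 + max r r₁) / 2 = (1 - max r r₁) / 2 := by ring
        rw [this, inv_div]
      have h6 : (1 - r) * (1 - r₁) ≤ 1 - max r r₁ := by
        rcases le_total r r₁ with h | h
        · rw [max_eq_right h]; nlinarith
        · rw [max_eq_left h]; nlinarith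
      have h7 : (1 - s)⁻¹ ≤ (2 / (1 - r₁)) * (1 - r)⁻¹ := by
        rw [e2, ← div_eq_mul_inv, div_div, mul_comm (1 - r₁)]
        exact div_le_div_of_nonneg_left (by norm_num) (by positivity) h6
      have h8 : ((1 - s) ^ m)⁻¹ ≤ (2 / (1 - r₁)) ^ m * ((1 - r) ^ m)⁻¹ := by
        rw [← inv_pow, ← inv_pow, ← mul_pow]
        exact pow_le_pow_left₀ (by rw [inv_nonneg]; linarith) h7 m
      have h9 : C * ((1 - s) ^ m)⁻¹ ≤ C * ((2 / (1 - r₁)) ^ m * ((1 - r) ^ m)⁻¹) :=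
        mul_le_mul_of_nonneg_left h8 hC0
      rw [hV, hA]
      linarith

theorem FO_iff (f : HD) : FO f ↔ ∃ m : ℕ,
    (fun r : ℝ => Tc f.1 r) =O[𝓝[<] (1:ℝ)] fun r : ℝ => ((1 - r) ^ m)⁻¹ :=
  ⟨bigO_of_FO, fun ⟨_, h⟩ => FO_of_bigO h⟩

section

open FirstOrder FirstOrder.Language FirstOrder.Ring

variable [CompatibleRing HD]

theorem dfCmp {w R ρ c : (ℕ → HD) → HD} (hw : IsT w) (hR : IsT R) (hρ : IsT ρ) (hc : IsT c) :
    Df (fun v => Cmp (w v) (R v) (ρ v) (c v)) := by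
  unfold Cmp
  refine Df.all ?_
  exact Df.imp (dfConst (IsT.var 0)) (Df.imp
    (dfDv (hw.shift.sub hρ.shift) (hR.shift.sub (IsT.var 0)))
    (dfLe hw.shift IsT.one ((IsT.one.sub hc.shift).mul (IsT.var 0))))

theorem dfFO {f : (ℕ → HD) → HD} (hf : IsT f) : Df (fun v => FO (f v)) := by
  unfold FO
  refine Df.ex (Df.ex (Df.ex (Df.ex (Df.ex (Df.ex ?_)))))
  -- w = 5, R = 4, K = 3, B = 2, Q = 1, β = 0
  refine (dfDsk (IsT.var 5)).and ((dfConst (IsT.var 3)).and ((dfConst (IsT.var 2)).and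
    ((dfConst (IsT.var 0)).and ((dfQC (IsT.var 5) (IsT.var 4) (IsT.var 3)).and
    ((dfQB (IsT.var 5) (IsT.var 4) (IsT.var 2)).and ((dfQP 1 (IsT.var 5) (IsT.var 1)).and
    ((dfQB (IsT.var 5) (IsT.var 1) (IsT.var 0)).and
      (Df.all (Df.imp (dfPos (IsT.var 6) (IsT.var 0)) (Df.ex (Df.ex ?_)))))))))))
  -- w = 8, R = 7, K = 6, B = 5, Q = 4, β = 3, ρ = 2, G = 1, c = 0
  exact (dfU (IsT.var 1)).and ((dfDom (IsT.var 8)
    hf.shift.shift.shift.shift.shift.shift.shift.shift.shift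
    (IsT.var 2) (IsT.var 1)).and ((dfPos (IsT.var 8) (IsT.var 0)).and
    ((dfCmp (IsT.var 8) (IsT.var 7) (IsT.var 2) (IsT.var 0)).and
    (dfSml (IsT.var 8) (IsT.var 4) (IsT.var 0) (IsT.var 1)))))

theorem exists_formula_order : ∃ φ : Language.ring.Formula (Fin 1), ∀ f : HD,
    φ.Realize (fun _ => f) ↔ ∃ m : ℕ,
      (fun r : ℝ => Tc f.1 r) =O[𝓝[<] (1:ℝ)] fun r : ℝ => ((1 - r) ^ m)⁻¹ := by
  obtain ⟨φ, hφ⟩ := Df.toFin (P := fun f => FO f) (dfFO (IsT.var 0))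
  exact ⟨φ, fun f => (hφ f).trans (FO_iff f)⟩

end

end Pool.Agent.H632.Gr
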